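import Pool.Agent.KS6_20.WV.LarBase
import Pool.Graph.R_seed8.Helper152.LarCal

set_option autoImplicit false
open MeasureTheory Pool.Agent.KS6_20.WV
open scoped ENNReal
open Pool.Agent.Helper152.LarB (total norm_exp_aux memLp_dil memLp_F ae_of_intervals ae_le_of_sets lintegral_dil)

namespace Pool.Agent.KS6_20.WV.LarB

variable [Dil]

/-- exact formula for sets in a short interval -/
theorem fact1 (φ : ℝ → ℂ) (F : ℤ → ℤ → ℝ → ℂ) (hm : Measurable φ) (hφ : MemLp φ 2 volume)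
    (hF : ∀ (j k : ℤ) (ξ : ℝ), F j k ξ =
        ((Real.sqrt (((Dil.n:ℝ) + 2) ^ (-j)) : ℝ) : ℂ) *
          Complex.exp (-(2 * (Real.pi : ℂ) * Complex.I * (k : ℂ) * (((((Dil.n:ℝ) + 2) ^ (-j)) * ξ : ℝ) : ℂ))) *
          φ ((((Dil.n:ℝ) + 2) ^ (-j)) * ξ))
    (j : ℤ) (c : ℝ) (A : Set ℝ) (hA : MeasurableSet A) (hAc : A ⊆ Set.Ioc c (c + ((Dil.n:ℝ) + 2) ^ j)) :
    ∑' k : ℤ, ‖∫ x in A, F j k x‖ₑ ^ 2 = ∫⁻ x in A, ‖φ (((Dil.n:ℝ) + 2) ^ (-j) * x)‖ₑ ^ 2 := by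
  have hT : 0 < ((Dil.n:ℝ) + 2) ^ j := by positivity
  set T : ℝ := ((Dil.n:ℝ) + 2) ^ j with hTdef
  have haT : ((Dil.n:ℝ) + 2) ^ (-j) = T⁻¹ := by rw [zpow_neg]
  set g : ℝ → ℂ := A.indicator (fun x => φ (T⁻¹ * x)) with hg
  have hdil := memLp_dil φ hm hφ (inv_ne_zero hT.ne')
  have hgL : MemLp g 2 volume := hdil.indicator hA
  have hs := hasSum_sq_fourierCoeffOn (a := c) (b := c + T) (by linarith) (hgL.restrict _)
  have hk : ∀ k : ℤ, ‖∫ x in A, F j k x‖ ^ 2 = T * ‖fourierCoeffOn (show c < c + T by linarith) g k‖ ^ 2 := by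
    intro k
    rw [fourierCoeffOn_eq_integral, intervalIntegral.integral_of_le (by linarith)]
    have h1 : ∫ x in Set.Ioc c (c + T), fourier (-k) (x : AddCircle (c + T - c)) • g x
        = ∫ x in A, fourier (-k) (x : AddCircle (c + T - c)) • φ (T⁻¹ * x) := by
      have h2 : (fun x : ℝ => fourier (-k) (x : AddCircle (c + T - c)) • g x)
          = A.indicator (fun x : ℝ => fourier (-k) (x : AddCircle (c + T - c)) • φ (T⁻¹ * x)) := by
        ext x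
        by_cases hx : x ∈ A
        · simp [hg, hx]
        · simp [hg, hx]
      rw [h2, setIntegral_indicator hA, Set.inter_eq_self_of_subset_right hAc]
    rw [h1]
    have h3 : ∫ x in A, F j k x = ((Real.sqrt T⁻¹ : ℝ) : ℂ) * ∫ x in A, fourier (-k) (x : AddCircle (c + T - c)) • φ (T⁻¹ * x) := by
      rw [← integral_const_mul]
      apply integral_congr_ae
      refine Filter.Eventually.of_forall fun x => ?_
      simp only
      rw [hF, haT, fourier_coe_apply, smul_eq_mul, mul_assoc]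
      congr 3
      rw [add_sub_cancel_left]
      push_cast
      field_simp
    rw [h3, norm_mul, norm_smul, Complex.norm_real, Real.norm_eq_abs, Real.norm_eq_abs,
      abs_of_nonneg (Real.sqrt_nonneg _), abs_of_pos (by rw [add_sub_cancel_left]; positivity), add_sub_cancel_left,
      mul_pow, mul_pow, Real.sq_sqrt (by positivity)]
    field_simp
  have h5 : HasSum (fun k : ℤ => ‖∫ x in A, F j k x‖ ^ 2) (∫ x in A, ‖φ (T⁻¹ * x)‖ ^ 2) := by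
    have h6 := hs.mul_left T
    simp only [← hk] at h6
    rw [add_sub_cancel_left, smul_eq_mul, ← mul_assoc, mul_inv_cancel₀ hT.ne', one_mul,
      intervalIntegral.integral_of_le (by linarith)] at h6
    have h7 : (fun x => ‖g x‖ ^ 2) = A.indicator (fun x => ‖φ (T⁻¹ * x)‖ ^ 2) := by
      ext x
      by_cases hx : x ∈ A
      · simp [hg, hx]
      · simp [hg, hx]
    rw [h7, setIntegral_indicator hA, Set.inter_eq_self_of_subset_right hAc] at h6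
    exact h6
  have hint : Integrable (fun x => ‖φ (T⁻¹ * x)‖ ^ 2) (volume.restrict A) :=
    ((memLp_two_iff_integrable_sq_norm hdil.1).mp hdil).integrableOn
  have h8 : ∀ z : ℂ, ‖z‖ₑ ^ 2 = ENNReal.ofReal (‖z‖ ^ 2) := by
    intro z
    rw [← ofReal_norm, ENNReal.ofReal_pow (norm_nonneg _)]
  simp only [h8]
  rw [← ENNReal.ofReal_tsum_of_nonneg (fun i => by positivity) h5.summable, h5.tsum_eq,
    ofReal_integral_eq_lintegral_ofReal hint (Filter.Eventually.of_forall fun x => by positivity), haT]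



theorem enorm_sum_sq_le (m : ℕ) (a : ℕ → ℂ) :
    ‖∑ i ∈ Finset.range m, a i‖ₑ ^ 2 ≤ m * ∑ i ∈ Finset.range m, ‖a i‖ₑ ^ 2 := by
  have h8 : ∀ z : ℂ, ‖z‖ₑ ^ 2 = ENNReal.ofReal (‖z‖ ^ 2) := by
    intro z
    rw [← ofReal_norm, ENNReal.ofReal_pow (norm_nonneg _)]
  simp only [h8]
  rw [← ENNReal.ofReal_sum_of_nonneg (fun i _ => by positivity), ← ENNReal.ofReal_natCast m,
    ← ENNReal.ofReal_mul (by positivity)]
  apply ENNReal.ofReal_le_ofReal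
  have h1 : ‖∑ i ∈ Finset.range m, a i‖ ≤ ∑ i ∈ Finset.range m, ‖a i‖ := norm_sum_le _ _
  have h2 := sq_sum_le_card_mul_sum_sq (s := Finset.range m) (f := fun i => ‖a i‖)
  rw [Finset.card_range] at h2
  refine le_trans ?_ h2
  gcongr

/-- bound on a union of `m` consecutive intervals -/
theorem fact2 (φ : ℝ → ℂ) (F : ℤ → ℤ → ℝ → ℂ) (hm : Measurable φ) (hφ : MemLp φ 2 volume)
    (hF : ∀ (j k : ℤ) (ξ : ℝ), F j k ξ =
        ((Real.sqrt (((Dil.n:ℝ) + 2) ^ (-j)) : ℝ) : ℂ) *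
          Complex.exp (-(2 * (Real.pi : ℂ) * Complex.I * (k : ℂ) * (((((Dil.n:ℝ) + 2) ^ (-j)) * ξ : ℝ) : ℂ))) *
          φ ((((Dil.n:ℝ) + 2) ^ (-j)) * ξ))
    (hFL : ∀ j k, MemLp (F j k) 2 volume) (j : ℤ) (m : ℕ)
    (c : ℝ) (A : Set ℝ) (hA : MeasurableSet A)
    (hAc : A ⊆ Set.Ioc c (c + m * ((Dil.n:ℝ) + 2) ^ j)) :
    ∑' k : ℤ, ‖∫ x in A, F j k x‖ₑ ^ 2 ≤ m * ∫⁻ x in A, ‖φ (((Dil.n:ℝ) + 2) ^ (-j) * x)‖ₑ ^ 2 := by
  set T : ℝ := ((Dil.n:ℝ) + 2) ^ j with hTdef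
  have hT : 0 < T := by positivity
  let B : ℕ → Set ℝ := fun i => A ∩ Set.Ioc (c + i * T) (c + i * T + T)
  have hB : ∀ i, MeasurableSet (B i) := fun i => hA.inter measurableSet_Ioc
  have hAB : A = ⋃ i ∈ Finset.range m, B i := by
    ext x
    simp only [Set.mem_iUnion, Finset.mem_range, B, Set.mem_inter_iff, Set.mem_Ioc, exists_prop]
    constructor
    · intro hx
      have h := hAc hx
      rw [Set.mem_Ioc] at h
      have h0 : 0 < (x - c) / T := div_pos (by linarith) hT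
      have hq1 : 0 < ⌈(x - c) / T⌉₊ := Nat.ceil_pos.2 h0
      obtain ⟨i, hi⟩ : ∃ i, ⌈(x - c) / T⌉₊ = i + 1 := ⟨⌈(x - c) / T⌉₊ - 1, by omega⟩
      have h1 : (x - c) / T ≤ ((i + 1 : ℕ) : ℝ) := by rw [← hi]; exact Nat.le_ceil _
      have h2 : (i:ℝ) < (x - c) / T := by rw [← Nat.lt_ceil]; omega
      have h3 : ⌈(x - c) / T⌉₊ ≤ m := Nat.ceil_le.2 (by rw [div_le_iff₀ hT]; linarith [h.2])
      rw [div_le_iff₀ hT] at h1
      rw [lt_div_iff₀ hT] at h2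
      push_cast at h1
      exact ⟨i, by omega, hx, by linarith, by linarith⟩
    · rintro ⟨i, _, h, _⟩
      exact h
  have hdisj : Set.PairwiseDisjoint (↑(Finset.range m) : Set ℕ) B := by
    have key : ∀ i i' : ℕ, i < i' → Disjoint (B i) (B i') := by
      intro i i' h
      rw [Set.disjoint_left]
      rintro x ⟨_, h1⟩ ⟨_, h2⟩
      have h3 : ((i + 1 : ℕ) : ℝ) ≤ (i' : ℝ) := by exact_mod_cast h
      push_cast at h3
      have h4 : ((i:ℝ) + 1) * T ≤ i' * T := mul_le_mul_of_nonneg_right h3 hT.le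
      linarith [h1.2, h2.1]
    intro i _ i' _ hne
    rcases lt_or_gt_of_ne hne with h | h
    · exact key i i' h
    · exact (key i' i h).symm
  have hint : ∀ (k : ℤ) (i : ℕ), IntegrableOn (F j k) (B i) := by
    intro k i
    have hfin : volume (B i) < ∞ := (measure_mono Set.inter_subset_right).trans_lt measure_Ioc_lt_top
    have : IsFiniteMeasure (volume.restrict (B i)) := ⟨by rw [Measure.restrict_apply_univ]; exact hfin⟩
    exact ((hFL j k).restrict (B i)).integrable (by norm_num)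
  have hsplit : ∀ k : ℤ, ∫ x in A, F j k x = ∑ i ∈ Finset.range m, ∫ x in B i, F j k x := by
    intro k
    conv_lhs => rw [hAB]
    exact integral_biUnion_finset _ (fun i _ => hB i) hdisj (fun i _ => hint k i)
  have hfact : ∀ i : ℕ, ∑' k : ℤ, ‖∫ x in B i, F j k x‖ₑ ^ 2 =
      ∫⁻ x in B i, ‖φ (((Dil.n:ℝ) + 2) ^ (-j) * x)‖ₑ ^ 2 := fun i =>
    fact1 φ F hm hφ hF j (c + i * T) (B i) (hB i) (fun x hx => hx.2)
  calc ∑' k : ℤ, ‖∫ x in A, F j k x‖ₑ ^ 2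
      ≤ ∑' k : ℤ, (m : ℝ≥0∞) * ∑ i ∈ Finset.range m, ‖∫ x in B i, F j k x‖ₑ ^ 2 := by
        refine ENNReal.tsum_le_tsum fun k => ?_
        rw [hsplit k]
        exact enorm_sum_sq_le m _
    _ = m * ∑ i ∈ Finset.range m, ∑' k : ℤ, ‖∫ x in B i, F j k x‖ₑ ^ 2 := by
        rw [ENNReal.tsum_mul_left, Summable.tsum_finsetSum (fun i _ => ENNReal.summable)]
    _ = m * ∫⁻ x in A, ‖φ (((Dil.n:ℝ) + 2) ^ (-j) * x)‖ₑ ^ 2 := by
        simp only [hfact]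
        congr 1
        conv_rhs => rw [hAB]
        exact (lintegral_biUnion_finset hdisj (fun i _ => hB i) _).symm

/-- dyadic shells -/
def Sh (l : ℤ) : Set ℝ := {x | ((Dil.n:ℝ) + 2) ^ l ≤ |x| ∧ |x| < ((Dil.n:ℝ) + 2) ^ (l + 1)}

lemma Sh_meas (l : ℤ) : MeasurableSet (Sh l) := by
  apply MeasurableSet.inter
  · exact measurableSet_le measurable_const measurable_norm
  · exact measurableSet_lt measurable_norm measurable_const

lemma Sh_disj {l l' : ℤ} (h : l < l') : Disjoint (Sh l) (Sh l') := by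
  rw [Set.disjoint_left]
  rintro x ⟨_, h1⟩ ⟨h2, _⟩
  have h3 : ((Dil.n:ℝ) + 2) ^ (l + 1) ≤ ((Dil.n:ℝ) + 2) ^ l' := zpow_le_zpow_right₀ one_le_d (by omega)
  linarith

lemma Sh_dil (l j : ℤ) (x : ℝ) : ((Dil.n:ℝ) + 2) ^ (-j) * x ∈ Sh (l - j) ↔ x ∈ Sh l := by
  have h0 : (0:ℝ) < (Dil.n + 2) ^ (-j) := by positivity
  simp only [Sh, Set.mem_ofPred_eq, abs_mul, abs_of_pos h0]
  rw [show l - j = -j + l by ring, show -j + l + 1 = -j + (l + 1) by ring, zpow_add₀ (by positivity), zpow_add₀ (by positivity)]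
  rw [mul_le_mul_iff_right₀ h0, mul_lt_mul_iff_right₀ h0]

lemma K_finite (φ : ℝ → ℂ) (hm : Measurable φ) (hφ : MemLp φ 2 volume) :
    ∀ᵐ x : ℝ, ∑' j : ℤ, ENNReal.ofReal (((Dil.n:ℝ) + 2) ^ (-j)) * ‖φ (((Dil.n:ℝ) + 2) ^ (-j) * x)‖ₑ ^ 2 < ∞ := by
  have hmeas : ∀ j : ℤ, Measurable (fun x : ℝ => ENNReal.ofReal (((Dil.n:ℝ) + 2) ^ (-j)) * ‖φ (((Dil.n:ℝ) + 2) ^ (-j) * x)‖ₑ ^ 2) := by
    intro j
    exact ((hm.comp (measurable_const_mul _)).enorm.pow_const 2).const_mul _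
  have hφm : Measurable (fun x => ‖φ x‖ₑ ^ 2) := hm.enorm.pow_const 2
  have hfin : ∫⁻ x, ‖φ x‖ₑ ^ 2 < ∞ := by
    have h1 := ((memLp_two_iff_integrable_sq_norm hm.aestronglyMeasurable).mp hφ).lintegral_lt_top
    have h2 : (fun x => ‖φ x‖ₑ ^ 2) = fun x => ENNReal.ofReal (‖φ x‖ ^ 2) := by
      ext x
      rw [← ofReal_norm, ENNReal.ofReal_pow (norm_nonneg _)]
    rw [h2]; exact h1
  have hl : ∀ l : ℤ, ∀ᵐ x : ℝ, x ∈ Sh l → ∑' j : ℤ, ENNReal.ofReal (((Dil.n:ℝ) + 2) ^ (-j)) * ‖φ (((Dil.n:ℝ) + 2) ^ (-j) * x)‖ₑ ^ 2 < ∞ := by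
    intro l
    rw [← ae_restrict_iff' (Sh_meas l)]
    apply ae_lt_top (Measurable.tsum hmeas)
    rw [lintegral_tsum (fun j => (hmeas j).aemeasurable)]
    have h2 : ∀ j : ℤ, ∫⁻ x in Sh l, ENNReal.ofReal (((Dil.n:ℝ) + 2) ^ (-j)) * ‖φ (((Dil.n:ℝ) + 2) ^ (-j) * x)‖ₑ ^ 2
        = ∫⁻ x in Sh (l - j), ‖φ x‖ₑ ^ 2 := by
      intro j
      have h7 : Measurable (fun x : ℝ => ‖φ (((Dil.n:ℝ) + 2) ^ (-j) * x)‖ₑ ^ 2) := (hm.comp (measurable_const_mul _)).enorm.pow_const 2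
      rw [lintegral_const_mul _ h7]
      rw [← lintegral_indicator (Sh_meas l), ← lintegral_indicator (Sh_meas (l - j))]
      rw [← lintegral_dil (a := ((Dil.n:ℝ) + 2) ^ (-j)) (by positivity) _ (hφm.indicator (Sh_meas (l - j)))]
      congr 2
      ext x
      by_cases hx : x ∈ Sh l
      · rw [Set.indicator_of_mem hx, Set.indicator_of_mem ((Sh_dil l j x).mpr hx)]
      · rw [Set.indicator_of_notMem hx, Set.indicator_of_notMem (fun h => hx ((Sh_dil l j x).mp h))]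
    simp only [h2]
    rw [← lintegral_iUnion (fun j => Sh_meas (l - j))]
    · exact ((setLIntegral_le_lintegral _ _).trans_lt hfin).ne
    · intro i j hij
      rcases lt_or_gt_of_ne hij with h | h
      · exact (Sh_disj (show l - j < l - i by omega)).symm
      · exact Sh_disj (show l - i < l - j by omega)
  have h0 : ∀ᵐ x : ℝ, x ≠ 0 := by
    have : volume ({0} : Set ℝ) = 0 := measure_singleton 0
    exact compl_mem_ae_iff.mpr this
  filter_upwards [ae_all_iff.mpr hl, h0] with x hx hx0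
  obtain ⟨n, hn⟩ := exists_mem_Ico_zpow (abs_pos.mpr hx0) one_lt_d
  exact hx n ⟨hn.1, hn.2⟩

/-- Calderon condition from orthonormality and completeness. -/
theorem calderon
    (φ : ℝ → ℂ) (F : ℤ → ℤ → ℝ → ℂ) (hm : Measurable φ) (hφ : MemLp φ 2 volume)
    (hF : ∀ (j k : ℤ) (ξ : ℝ), F j k ξ =
        ((Real.sqrt (((Dil.n:ℝ) + 2) ^ (-j)) : ℝ) : ℂ) *
          Complex.exp (-(2 * (Real.pi : ℂ) * Complex.I * (k : ℂ) * (((((Dil.n:ℝ) + 2) ^ (-j)) * ξ : ℝ) : ℂ))) *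
          φ ((((Dil.n:ℝ) + 2) ^ (-j)) * ξ))
    (ho : ∀ j k j' k' : ℤ, ∫ ξ, F j k ξ * (starRingEnd ℂ) (F j' k' ξ) =
        if j = j' ∧ k = k' then (1:ℂ) else 0)
    (hc : ∀ g : ℝ → ℂ, MemLp g 2 volume →
        (∀ j k : ℤ, ∫ ξ, g ξ * (starRingEnd ℂ) (F j k ξ) = 0) → g =ᵐ[volume] 0) :
    ∀ᵐ x : ℝ, ∑' j : ℤ, ‖φ (((Dil.n:ℝ) + 2) ^ j * x)‖ₑ ^ 2 = 1 := by
  have hFL : ∀ j k, MemLp (F j k) 2 volume := by
    intro j k
    have h1 := memLp_F φ hm hφ (a := ((Dil.n:ℝ) + 2) ^ (-j)) (by positivity) (Real.sqrt (((Dil.n:ℝ) + 2) ^ (-j))) k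
    have h2 : F j k = (fun ξ => ((Real.sqrt (((Dil.n:ℝ) + 2) ^ (-j)) : ℝ) : ℂ) *
          Complex.exp (-(2 * (Real.pi : ℂ) * Complex.I * (k : ℂ) * (((((Dil.n:ℝ) + 2) ^ (-j)) * ξ : ℝ) : ℂ))) *
          φ ((((Dil.n:ℝ) + 2) ^ (-j)) * ξ)) := by
      ext ξ; exact hF j k ξ
    rw [h2]; exact h1
  have htot := fun (A : Set ℝ) (hA : MeasurableSet A) (hAf : volume A ≠ ∞) => total F hFL ho hc A hA hAf
  have hφj : ∀ j : ℤ, Measurable (fun x : ℝ => ‖φ (((Dil.n:ℝ) + 2) ^ (-j) * x)‖ₑ ^ 2) := fun j =>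
    (hm.comp (measurable_const_mul _)).enorm.pow_const 2
  have hsubfin : ∀ (c ℓ : ℝ) (A : Set ℝ), A ⊆ Set.Ioc c (c + ℓ) → volume A ≠ ∞ := fun c ℓ A hA =>
    ((measure_mono hA).trans_lt measure_Ioc_lt_top).ne
  -- upper bound
  have hup : ∀ S : Finset ℤ, ∀ᵐ x : ℝ, ∑ j ∈ S, ‖φ (((Dil.n:ℝ) + 2) ^ (-j) * x)‖ₑ ^ 2 ≤ 1 := by
    intro S
    obtain ⟨M, hM⟩ : ∃ M : ℤ, ∀ j ∈ S, M ≤ j := by
      obtain ⟨M, hM⟩ := S.bddBelow
      exact ⟨M, fun j hj => hM hj⟩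
    apply ae_of_intervals (ℓ := ((Dil.n:ℝ) + 2) ^ M) (by positivity)
    intro c
    apply ae_le_of_sets _ (fun _ => 1)
    · exact Finset.measurable_sum _ (fun j _ => hφj j)
    · intro A hA hAc
      rw [lintegral_finsetSum _ (fun j _ => hφj j), setLIntegral_const, one_mul, ← htot A hA (hsubfin _ _ A hAc)]
      calc ∑ j ∈ S, ∫⁻ x in A, ‖φ (((Dil.n:ℝ) + 2) ^ (-j) * x)‖ₑ ^ 2
          = ∑ j ∈ S, ∑' k : ℤ, ‖∫ x in A, F j k x‖ₑ ^ 2 := by
            apply Finset.sum_congr rfl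
            intro j hj
            rw [fact1 φ F hm hφ hF j c A hA]
            refine hAc.trans (Set.Ioc_subset_Ioc_right ?_)
            have : ((Dil.n:ℝ) + 2) ^ M ≤ ((Dil.n:ℝ) + 2) ^ j := zpow_le_zpow_right₀ one_le_d (hM j hj)
            linarith
        _ ≤ _ := ENNReal.sum_le_tsum _
  -- lower bound
  have hlow : ∀ N : ℕ, ∀ᵐ x : ℝ, 1 ≤ ∑' j : ℤ, ‖φ (((Dil.n:ℝ) + 2) ^ (-j) * x)‖ₑ ^ 2 + ENNReal.ofReal (((Dil.n:ℝ) + 2) ^ (-(N:ℤ))) *
      ∑' j : ℤ, ENNReal.ofReal (((Dil.n:ℝ) + 2) ^ (-j)) * ‖φ (((Dil.n:ℝ) + 2) ^ (-j) * x)‖ₑ ^ 2 := by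
    intro N
    apply ae_of_intervals (ℓ := ((Dil.n:ℝ) + 2) ^ (-(N:ℤ))) (by positivity)
    intro c
    apply ae_le_of_sets (fun _ => 1)
    · exact measurable_const
    · intro A hA hAc
      rw [setLIntegral_const, one_mul, ← htot A hA (hsubfin _ _ A hAc)]
      rw [lintegral_add_left (Measurable.tsum hφj), lintegral_const_mul _ (Measurable.tsum fun j => (hφj j).const_mul _),
        lintegral_tsum (fun j => (hφj j).aemeasurable), lintegral_tsum (fun j => ((hφj j).const_mul _).aemeasurable),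
        ← ENNReal.tsum_mul_left, ← ENNReal.tsum_add]
      apply ENNReal.tsum_le_tsum
      intro j
      rw [lintegral_const_mul _ (hφj j)]
      by_cases hj : -(N:ℤ) ≤ j
      · rw [fact1 φ F hm hφ hF j c A hA]
        · exact le_self_add
        · refine hAc.trans (Set.Ioc_subset_Ioc_right ?_)
          have : ((Dil.n:ℝ) + 2) ^ (-(N:ℤ)) ≤ ((Dil.n:ℝ) + 2) ^ j := zpow_le_zpow_right₀ one_le_d hj
          linarith
      · obtain ⟨n, hn⟩ := Int.eq_ofNat_of_zero_le (show 0 ≤ -(N:ℤ) - j by omega)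
        have h1 : ((Dil.n:ℝ) + 2) ^ n * ((Dil.n:ℝ) + 2) ^ j = ((Dil.n:ℝ) + 2) ^ (-(N:ℤ)) := by
          rw [← zpow_natCast, ← zpow_add₀ (by positivity)]
          congr 1; omega
        have h1' : (((Dil.n + 2) ^ n : ℕ) : ℝ) = ((Dil.n:ℝ) + 2) ^ n := by push_cast; ring
        have h2 := fact2 φ F hm hφ hF hFL j ((Dil.n + 2) ^ n) c A hA (by rw [h1', h1]; exact hAc)
        refine h2.trans ?_
        have h3 : (((Dil.n + 2) ^ n : ℕ) : ℝ≥0∞) = ENNReal.ofReal (((Dil.n:ℝ) + 2) ^ (-(N:ℤ))) * ENNReal.ofReal (((Dil.n:ℝ) + 2) ^ (-j)) := by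
          rw [← ENNReal.ofReal_mul (by positivity), ← zpow_add₀ (by positivity), show -(N:ℤ) + -j = (n:ℤ) by omega,
            zpow_natCast, ← h1', ENNReal.ofReal_natCast]
        rw [h3, mul_assoc]
        exact le_add_self
  filter_upwards [ae_all_iff.mpr hup, ae_all_iff.mpr hlow, K_finite φ hm hφ] with x h1 h2 h3
  have hre : ∑' j : ℤ, ‖φ (((Dil.n:ℝ) + 2) ^ j * x)‖ₑ ^ 2 = ∑' j : ℤ, ‖φ (((Dil.n:ℝ) + 2) ^ (-j) * x)‖ₑ ^ 2 :=
    ((Equiv.neg ℤ).tsum_eq (fun j : ℤ => ‖φ (((Dil.n:ℝ) + 2) ^ j * x)‖ₑ ^ 2)).symm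
  rw [hre]
  apply le_antisymm
  · rw [ENNReal.tsum_eq_iSup_sum]
    exact iSup_le h1
  · set K := ∑' j : ℤ, ENNReal.ofReal (((Dil.n:ℝ) + 2) ^ (-j)) * ‖φ (((Dil.n:ℝ) + 2) ^ (-j) * x)‖ₑ ^ 2 with hK
    set G := ∑' j : ℤ, ‖φ (((Dil.n:ℝ) + 2) ^ (-j) * x)‖ₑ ^ 2 with hG
    have ht : Filter.Tendsto (fun N : ℕ => G + ENNReal.ofReal (((Dil.n:ℝ) + 2) ^ (-(N:ℤ))) * K) Filter.atTop (nhds (G + 0 * K)) := by
      apply Filter.Tendsto.const_add
      apply ENNReal.Tendsto.mul_const _ (Or.inr h3.ne)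
      have h4 : Filter.Tendsto (fun N : ℕ => ((Dil.n:ℝ) + 2) ^ (-(N:ℤ))) Filter.atTop (nhds 0) := by
        have h5 : (fun N : ℕ => ((Dil.n:ℝ) + 2) ^ (-(N:ℤ))) = fun N : ℕ => ((1:ℝ) / ((Dil.n:ℝ) + 2)) ^ N := by
          ext N; rw [zpow_neg, zpow_natCast, one_div, inv_pow]
        rw [h5]
        exact tendsto_pow_atTop_nhds_zero_of_lt_one (by positivity)
          (by rw [div_lt_one (by positivity)]; exact one_lt_d)
      have h6 := ENNReal.tendsto_ofReal h4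
      rwa [ENNReal.ofReal_zero] at h6
    rw [zero_mul, add_zero] at ht
    exact ge_of_tendsto' ht h2

end Pool.Agent.KS6_20.WV.LarB
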