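import Pool.Agent.KS6_20.WV.LarBase
import Pool.Graph.R_seed8.Helper152.LarFib

set_option autoImplicit false
open MeasureTheory Pool.Agent.KS6_20.WV
open scoped ENNReal
open Pool.Agent.Helper152.LarA (per_lintegral per_integral vanish ae_periodic)

namespace Pool.Agent.KS6_20.WV.LarA

variable [Dil]

section aux
open Filter Topology

section main
variable (φ : ℝ → ℂ) (F : ℤ → ℤ → ℝ → ℂ) (hm : Measurable φ) (hφ : MemLp φ 2 volume)
    (hF : ∀ (j k : ℤ) (ξ : ℝ), F j k ξ =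
        ((Real.sqrt (((Dil.n:ℝ) + 2) ^ (-j)) : ℝ) : ℂ) *
          Complex.exp (-(2 * (Real.pi : ℂ) * Complex.I * (k : ℂ) * (((((Dil.n:ℝ) + 2) ^ (-j)) * ξ : ℝ) : ℂ))) *
          φ ((((Dil.n:ℝ) + 2) ^ (-j)) * ξ))
    (ho : ∀ j k j' k' : ℤ, ∫ ξ, F j k ξ * (starRingEnd ℂ) (F j' k' ξ) =
        if j = j' ∧ k = k' then (1:ℂ) else 0)

include hF in
lemma F0 (k : ℤ) (x : ℝ) : F 0 k x = Complex.exp (-(2 * (Real.pi : ℂ) * Complex.I * (k : ℂ) * x)) * φ x := by
  rw [hF]
  simp

include hF ho in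
lemma coef0 (k : ℤ) : ∫ x, (φ x * (starRingEnd ℂ) (φ x)) *
    Complex.exp (2 * (Real.pi:ℂ) * Complex.I * (k:ℂ) * (x:ℂ)) = if k = 0 then 1 else 0 := by
  have h := ho 0 (-k) 0 0
  have h2 : (if (0:ℤ) = 0 ∧ -k = 0 then (1:ℂ) else 0) = if k = 0 then 1 else 0 := by simp
  rw [h2] at h
  rw [← h]
  refine integral_congr_ae (Eventually.of_forall fun x => ?_)
  simp only
  rw [F0 φ F hF, F0 φ F hF]
  simp only [Int.cast_neg, Int.cast_zero, mul_zero, zero_mul, neg_zero, Complex.exp_zero, one_mul]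
  have : -(2 * (Real.pi:ℂ) * Complex.I * -(k:ℂ) * x) = 2 * (Real.pi:ℂ) * Complex.I * (k:ℂ) * x := by ring
  rw [this]
  ring

include hF ho in
lemma coefi (i : ℕ) (hi : 1 ≤ i) (k : ℤ) : ∫ x, (φ (((Dil.n:ℝ) + 2)^i * x) * (starRingEnd ℂ) (φ x)) *
    Complex.exp (2 * (Real.pi:ℂ) * Complex.I * (k:ℂ) * (x:ℂ)) = 0 := by
  have h := ho (-(i:ℤ)) 0 0 k
  have h2 : ¬ (-(i:ℤ) = 0 ∧ (0:ℤ) = k) := by
    rintro ⟨h1, -⟩
    omega
  rw [if_neg h2] at h
  have hs : ((Real.sqrt (((Dil.n:ℝ) + 2) ^ i) : ℝ) : ℂ) ≠ 0 := by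
    have : 0 < Real.sqrt (((Dil.n:ℝ) + 2) ^ i) := Real.sqrt_pos.mpr (by positivity)
    exact_mod_cast this.ne'
  have h3 : ∫ x, F (-(i:ℤ)) 0 x * (starRingEnd ℂ) (F 0 k x) =
      ((Real.sqrt (((Dil.n:ℝ) + 2) ^ i) : ℝ) : ℂ) * ∫ x, (φ (((Dil.n:ℝ) + 2)^i * x) * (starRingEnd ℂ) (φ x)) *
    Complex.exp (2 * (Real.pi:ℂ) * Complex.I * (k:ℂ) * (x:ℂ)) := by
    rw [← integral_const_mul]
    refine integral_congr_ae (Eventually.of_forall fun x => ?_)
    simp only
    rw [F0 φ F hF, hF]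
    simp only [neg_neg, zpow_natCast, Int.cast_zero, mul_zero, zero_mul, neg_zero,
      Complex.exp_zero, mul_one, map_mul]
    have : (starRingEnd ℂ) (Complex.exp (-(2 * (Real.pi:ℂ) * Complex.I * (k:ℂ) * x))) =
        Complex.exp (2 * (Real.pi:ℂ) * Complex.I * (k:ℂ) * x) := by
      rw [← Complex.exp_conj]
      congr 1
      simp only [map_neg, map_mul, Complex.conj_I, Complex.conj_ofReal, map_ofNat, map_intCast]
      ring
    rw [this]
    ring
  rw [h3] at h
  exact (mul_eq_zero.mp h).resolve_left hs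

include hm hφ in
lemma int0 : Integrable (fun x => φ x * (starRingEnd ℂ) (φ x)) := by
  have h1 := hφ.integrable_norm_pow (by norm_num)
  refine ⟨(hm.mul (by fun_prop)).aestronglyMeasurable, ?_⟩
  have h2 := h1.2
  refine lt_of_le_of_lt (le_of_eq ?_) h2
  refine lintegral_congr fun x => ?_
  rw [← ofReal_norm, ← ofReal_norm]
  congr 1
  simp [sq]

include hm hφ in
lemma inti (i : ℕ) : Integrable (fun x => φ (((Dil.n:ℝ) + 2)^i * x) * (starRingEnd ℂ) (φ x)) := by
  have h2 : MemLp (fun x => φ (((Dil.n:ℝ) + 2)^i * x)) 2 volume := by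
    have hmm : Measurable (fun x => φ (((Dil.n:ℝ) + 2)^i * x)) := hm.comp (measurable_const_mul (((Dil.n:ℝ) + 2)^i))
    rw [memLp_two_iff_integrable_sq_norm hmm.aestronglyMeasurable]
    have h1 := (memLp_two_iff_integrable_sq_norm hφ.1).mp hφ
    exact h1.comp_mul_left' (by positivity)
  have h3 : MemLp (fun x => (starRingEnd ℂ) (φ x)) 2 volume := by
    have := hφ.star
    exact this
  exact h2.integrable_mul h3

include hm hφ hF ho in
theorem fibre' :
    (∀ᵐ x : ℝ, ∑' n : ℤ, ‖φ (x + n)‖ₑ ^ 2 = 1) ∧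
    (∀ i : ℕ, 1 ≤ i → ∀ᵐ x : ℝ, ∑' n : ℤ, φ (((Dil.n:ℝ) + 2) ^ i * (x + n)) * (starRingEnd ℂ) (φ (x + n)) = 0) := by
  constructor
  · refine ae_periodic _ ?_ ?_
    · intro x m h
      rw [← h, ← (Equiv.addLeft m).tsum_eq]
      refine tsum_congr fun n => ?_
      simp only [Equiv.coe_addLeft]
      push_cast
      ring_nf
    · set h1 : ℝ → ℂ := fun x => φ x * (starRingEnd ℂ) (φ x) - (Set.Ico (0:ℝ) 1).indicator 1 x
        with hh1
      have hii : Integrable ((Set.Ico (0:ℝ) 1).indicator (1 : ℝ → ℂ)) := by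
        rw [integrable_indicator_iff measurableSet_Ico]
        exact integrableOn_const (by simp) (by simp)
      have hi1 : Integrable h1 := (int0 φ hm hφ).sub hii
      have hexp : ∀ (k : ℤ), Continuous fun x : ℝ =>
          Complex.exp (2 * (Real.pi:ℂ) * Complex.I * (k:ℂ) * (x:ℂ)) := fun k => by fun_prop
      have hexpb : ∀ (k : ℤ) (x : ℝ),
          ‖Complex.exp (2 * (Real.pi:ℂ) * Complex.I * (k:ℂ) * (x:ℂ))‖ ≤ 1 := by
        intro k x
        rw [Complex.norm_exp]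
        simp
      have hcoef : ∀ k : ℤ, ∫ x, h1 x *
          Complex.exp (2 * (Real.pi:ℂ) * Complex.I * (k:ℂ) * (x:ℂ)) = 0 := by
        intro k
        have e1 : ∀ x, h1 x * Complex.exp (2 * (Real.pi:ℂ) * Complex.I * (k:ℂ) * (x:ℂ)) =
            (φ x * (starRingEnd ℂ) (φ x)) *
              Complex.exp (2 * (Real.pi:ℂ) * Complex.I * (k:ℂ) * (x:ℂ)) -
            (Set.Ico (0:ℝ) 1).indicator 1 x *
              Complex.exp (2 * (Real.pi:ℂ) * Complex.I * (k:ℂ) * (x:ℂ)) := by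
          intro x
          rw [hh1]; ring
        simp_rw [e1]
        rw [integral_sub, coef0 φ F hF ho]
        · have e2 : ∀ x : ℝ, (Set.Ico (0:ℝ) 1).indicator (1 : ℝ → ℂ) x *
              Complex.exp (2 * (Real.pi:ℂ) * Complex.I * (k:ℂ) * (x:ℂ)) =
              (Set.Ico (0:ℝ) 1).indicator (fun x : ℝ =>
                Complex.exp (2 * (Real.pi:ℂ) * Complex.I * (k:ℂ) * (x:ℂ))) x := by
            intro x
            by_cases hx : x ∈ Set.Ico (0:ℝ) 1
            · rw [Set.indicator_of_mem hx, Set.indicator_of_mem hx]; simp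
            · rw [Set.indicator_of_notMem hx, Set.indicator_of_notMem hx]; simp
          simp_rw [e2]
          rw [integral_indicator measurableSet_Ico, integral_Ico_eq_integral_Ioc,
            ← intervalIntegral.integral_of_le zero_le_one]
          by_cases hk : k = 0
          · simp [hk]
          · rw [if_neg hk]
            have hc : (2 * (Real.pi:ℂ) * Complex.I * (k:ℂ)) ≠ 0 := by
              have := Real.pi_ne_zero
              simp [hk, this]
            rw [integral_exp_mul_complex hc]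
            have : Complex.exp (2 * (Real.pi:ℂ) * Complex.I * (k:ℂ) * ((1:ℝ):ℂ)) = 1 := by
              rw [Complex.exp_eq_one_iff]
              exact ⟨k, by push_cast; ring⟩
            rw [this]
            simp
        · exact (int0 φ hm hφ).mul_bdd (c := 1) (hexp k).aestronglyMeasurable
            (Eventually.of_forall fun x => hexpb k x)
        · exact hii.mul_bdd (c := 1) (hexp k).aestronglyMeasurable
            (Eventually.of_forall fun x => hexpb k x)
      have hv := vanish h1 hi1 hcoef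
      obtain ⟨hs, -, -⟩ := per_integral _ (int0 φ hm hφ)
      rw [ae_restrict_iff' measurableSet_Ico] at hs
      filter_upwards [hv, hs] with x hx hsx hxm
      have hx1 := hx hxm
      have hs1 := hsx hxm
      have hind : ∀ n : ℤ, (Set.Ico (0:ℝ) 1).indicator (1 : ℝ → ℂ) (x + n) =
          if n = 0 then 1 else 0 := by
        intro n
        by_cases hn : n = 0
        · subst hn
          rw [if_pos rfl, Set.indicator_of_mem (by simpa using hxm)]
          rfl
        · rw [if_neg hn, Set.indicator_of_notMem]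
          rintro ⟨h1, h2⟩
          have h3 := hxm.1
          have h4 := hxm.2
          have h5 : (-1:ℝ) < n := by linarith
          have h6 : (n:ℝ) < 1 := by linarith
          have h7 : (-1:ℤ) < n := by exact_mod_cast h5
          have h8 : n < 1 := by exact_mod_cast h6
          omega
      have hsC : Summable fun n : ℤ => φ (x + n) * (starRingEnd ℂ) (φ (x + n)) := hs1.of_norm
      have hsI : Summable fun n : ℤ => (Set.Ico (0:ℝ) 1).indicator (1 : ℝ → ℂ) (x + n) := by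
        simp_rw [hind]
        exact (hasSum_ite_eq 0 (1:ℂ)).summable
      have h9 : ∑' n : ℤ, φ (x + n) * (starRingEnd ℂ) (φ (x + n)) = 1 := by
        have h10 : ∑' n : ℤ, h1 (x + n) = (∑' n : ℤ, φ (x + n) * (starRingEnd ℂ) (φ (x + n))) -
            ∑' n : ℤ, (Set.Ico (0:ℝ) 1).indicator (1 : ℝ → ℂ) (x + n) := hsC.tsum_sub hsI
        rw [hx1] at h10
        simp_rw [hind] at h10
        rw [tsum_ite_eq] at h10
        exact (sub_eq_zero.mp h10.symm)
      have h11 : ∀ n : ℤ, φ (x + n) * (starRingEnd ℂ) (φ (x + n)) = ((‖φ (x + n)‖ ^ 2 : ℝ) : ℂ) := by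
        intro n
        rw [Complex.mul_conj, Complex.normSq_eq_norm_sq]
      simp_rw [h11] at h9
      rw [← Complex.ofReal_tsum] at h9
      have h12 : ∑' n : ℤ, ‖φ (x + n)‖ ^ 2 = 1 := by exact_mod_cast h9
      have hs2 : Summable fun n : ℤ => ‖φ (x + n)‖ ^ 2 := by
        refine hs1.congr fun n => ?_
        rw [norm_mul, RCLike.norm_conj, sq]
      have h13 : ∀ n : ℤ, ‖φ (x + n)‖ₑ ^ 2 = ENNReal.ofReal (‖φ (x + n)‖ ^ 2) := by
        intro n
        rw [← ofReal_norm, ENNReal.ofReal_pow (norm_nonneg _)]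
      simp_rw [h13]
      rw [← ENNReal.ofReal_tsum_of_nonneg (fun n => by positivity) hs2, h12, ENNReal.ofReal_one]
  · intro i hi
    refine ae_periodic _ ?_ (vanish _ (inti φ hm hφ i) (coefi φ F hF ho i hi))
    intro x m h
    rw [← h, ← (Equiv.addLeft m).tsum_eq]
    refine tsum_congr fun n => ?_
    simp only [Equiv.coe_addLeft]
    push_cast
    ring_nf

end main

end aux

/-- fibre orthonormality. -/
theorem fibre
    (φ : ℝ → ℂ) (F : ℤ → ℤ → ℝ → ℂ) (hm : Measurable φ) (hφ : MemLp φ 2 volume)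
    (hF : ∀ (j k : ℤ) (ξ : ℝ), F j k ξ =
        ((Real.sqrt (((Dil.n:ℝ) + 2) ^ (-j)) : ℝ) : ℂ) *
          Complex.exp (-(2 * (Real.pi : ℂ) * Complex.I * (k : ℂ) * (((((Dil.n:ℝ) + 2) ^ (-j)) * ξ : ℝ) : ℂ))) *
          φ ((((Dil.n:ℝ) + 2) ^ (-j)) * ξ))
    (ho : ∀ j k j' k' : ℤ, ∫ ξ, F j k ξ * (starRingEnd ℂ) (F j' k' ξ) =
        if j = j' ∧ k = k' then (1:ℂ) else 0) :
    (∀ᵐ x : ℝ, ∑' n : ℤ, ‖φ (x + n)‖ₑ ^ 2 = 1) ∧
    (∀ i : ℕ, 1 ≤ i → ∀ᵐ x : ℝ, ∑' n : ℤ, φ (((Dil.n:ℝ) + 2) ^ i * (x + n)) * (starRingEnd ℂ) (φ (x + n)) = 0) :=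
  fibre' φ F hm hφ hF ho

end Pool.Agent.KS6_20.WV.LarA
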