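import Pool.Agent.KS6_20.WV.LarBase
import Pool.Graph.R_seed8.Helper152.LarRank

set_option autoImplicit false
open MeasureTheory Pool.Agent.KS6_20.WV
open scoped ENNReal

namespace Pool.Agent.KS6_20.WV.LarD

variable [Dil]

open Pool.Agent.KS6_20.WV.Lar (w)
open Pool.Agent.Helper152.LarD (HZ esq tsum_esq abs_rank memlp_of)

/-- the vectors -/
noncomputable def vf (φ : ℝ → ℂ) (x : ℝ) (j : ℕ) (r : ℤ) : ℤ → ℂ :=
  fun n => if n % (Dil.n + 2) ^ j = r then φ ((x + n) / (Dil.n + 2) ^ j) else 0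

theorem class_inj (j : ℕ) (r : ℤ) : Function.Injective (fun m : ℤ => r + (Dil.n + 2) ^ j * m) := by
  intro a b hab
  have h1 : ((Dil.n:ℤ) + 2) ^ j * a = (Dil.n + 2) ^ j * b := add_left_cancel hab
  exact mul_left_cancel₀ (by positivity) h1

theorem tsum_class {M : Type*} [AddCommMonoid M] [TopologicalSpace M] (j : ℕ) (r : ℤ)
    (F : ℤ → M) (hF : ∀ n, n % (Dil.n + 2) ^ j ≠ r → F n = 0) :
    ∑' n, F n = ∑' m : ℤ, F (r + (Dil.n + 2) ^ j * m) := by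
  refine ((class_inj j r).tsum_eq ?_).symm
  intro n hn
  rw [Function.mem_support] at hn
  have h1 : n % (Dil.n + 2) ^ j = r := by
    by_contra h
    exact hn (hF n h)
  refine ⟨n / (Dil.n + 2) ^ j, ?_⟩
  have := Int.emod_add_mul_ediv n ((Dil.n + 2) ^ j)
  simp only
  linarith

theorem class_emod (j : ℕ) (r : ℤ) (hr0 : 0 ≤ r) (hr : r < (Dil.n + 2) ^ j) (m : ℤ) :
    (r + (Dil.n + 2) ^ j * m) % (Dil.n + 2) ^ j = r := by
  rw [Int.add_mul_emod_self_left]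
  exact Int.emod_eq_of_lt hr0 hr

theorem class_arg (x : ℝ) (j : ℕ) (r m : ℤ) :
    (x + ((r + (Dil.n + 2) ^ j * m : ℤ) : ℝ)) / (Dil.n + 2) ^ j = (x + r) / (Dil.n + 2) ^ j + m := by
  push_cast
  field_simp
  ring

theorem vf_norm (φ : ℝ → ℂ) (x : ℝ)
    (h1 : ∀ (j : ℕ) (r : ℤ), ∑' m : ℤ, ‖φ ((x + r) / (Dil.n + 2) ^ j + m)‖ₑ ^ 2 = 1)
    (j : ℕ) (r : ℤ) (hr0 : 0 ≤ r) (hr : r < (Dil.n + 2) ^ j) :
    ∑' n, ‖vf φ x j r n‖ₑ ^ 2 = 1 := by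
  rw [tsum_class j r (fun n => ‖vf φ x j r n‖ₑ ^ 2)
    (by intro n hn; simp [vf, hn]), ← h1 j r]
  congr 1
  funext m
  unfold vf
  rw [if_pos (class_emod j r hr0 hr m), class_arg]

/-- sums against the vectors vanish -/
theorem sum_vf (φ : ℝ → ℂ) (x : ℝ)
    (hc : ∀ (j : ℕ) (r : ℤ) (i : ℕ), 1 ≤ i →
      ∑' m : ℤ, φ (((Dil.n:ℝ) + 2) ^ i * ((x + r) / (Dil.n + 2) ^ j + m)) * (starRingEnd ℂ) (φ ((x + r) / (Dil.n + 2) ^ j + m)) = 0)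
    (j : ℕ) (r : ℤ) (hr0 : 0 ≤ r) (hr : r < (Dil.n + 2) ^ j) (g : ℤ → ℂ) (i : ℕ) (hi : 1 ≤ i)
    (hg : ∀ n, n % (Dil.n + 2) ^ j = r → g n = φ (((Dil.n:ℝ) + 2) ^ i * ((x + n) / (Dil.n + 2) ^ j))) :
    ∑' n, g n * (starRingEnd ℂ) (vf φ x j r n) = 0 := by
  rw [tsum_class j r (fun n => g n * (starRingEnd ℂ) (vf φ x j r n))
    (by intro n hn; simp [vf, hn]), ← hc j r i hi]
  congr 1
  funext m
  have h1 := class_emod j r hr0 hr m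
  unfold vf
  rw [if_pos h1, hg _ h1, class_arg]

theorem fib_sum (φ : ℝ → ℂ) (x : ℝ) (n : ℤ) :
    ∑' i : (Σ j : ℕ, Fin ((Dil.n + 2) ^ j)), ‖vf φ x i.1 ((i.2 : ℕ) : ℤ) n‖ₑ ^ 2 =
      ∑' j : ℕ, ‖φ ((x + n) / (Dil.n + 2) ^ j)‖ₑ ^ 2 := by
  rw [ENNReal.tsum_sigma (fun (j : ℕ) (r : Fin ((Dil.n + 2) ^ j)) => ‖vf φ x j ((r : ℕ) : ℤ) n‖ₑ ^ 2)]
  congr 1
  funext j
  rw [tsum_fintype]
  have hpos : (0:ℤ) < (Dil.n + 2) ^ j := by positivity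
  have h1 : 0 ≤ n % (Dil.n + 2) ^ j := Int.emod_nonneg _ hpos.ne'
  have h2 : n % (Dil.n + 2) ^ j < (Dil.n + 2) ^ j := Int.emod_lt_of_pos _ hpos
  have h3 : (n % (Dil.n + 2) ^ j).toNat < (Dil.n + 2) ^ j := by
    zify
    rw [Int.toNat_of_nonneg h1]
    exact h2
  rw [Finset.sum_eq_single (⟨(n % (Dil.n + 2) ^ j).toNat, h3⟩ : Fin ((Dil.n + 2) ^ j))]
  · simp only [vf]
    rw [if_pos (Int.toNat_of_nonneg h1).symm]
  · intro r _ hr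
    simp only [vf]
    rw [if_neg]
    · simp
    · intro h
      apply hr
      apply Fin.ext
      simp only
      rw [h, Int.toNat_natCast]
  · intro h
    exact absurd (Finset.mem_univ _) h

theorem split_z (φ : ℝ → ℂ) (y : ℝ) :
    ∑' j : ℤ, ‖φ (((Dil.n:ℝ) + 2) ^ j * y)‖ₑ ^ 2 = ∑' j : ℕ, ‖φ (y / (Dil.n + 2) ^ j)‖ₑ ^ 2 + w φ y := by
  have h0 : ∑' j : ℤ, ‖φ (((Dil.n:ℝ) + 2) ^ j * y)‖ₑ ^ 2 = ∑' j : ℤ, ‖φ (((Dil.n:ℝ) + 2) ^ (-j) * y)‖ₑ ^ 2 :=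
    ((Equiv.neg ℤ).tsum_eq (fun j : ℤ => ‖φ (((Dil.n:ℝ) + 2) ^ j * y)‖ₑ ^ 2)).symm
  rw [h0]
  have h1 : HasSum (fun n : ℕ => ‖φ (((Dil.n:ℝ) + 2) ^ (-(n:ℤ)) * y)‖ₑ ^ 2) (∑' j : ℕ, ‖φ (y / (Dil.n + 2) ^ j)‖ₑ ^ 2) := by
    have : (fun n : ℕ => ‖φ (((Dil.n:ℝ) + 2) ^ (-(n:ℤ)) * y)‖ₑ ^ 2) = fun j : ℕ => ‖φ (y / (Dil.n + 2) ^ j)‖ₑ ^ 2 := by
      funext n
      rw [zpow_neg, zpow_natCast, mul_comm, ← div_eq_mul_inv]
    rw [this]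
    exact ENNReal.summable.hasSum
  have h2 : HasSum (fun n : ℕ => ‖φ (((Dil.n:ℝ) + 2) ^ (-(-((n:ℤ) + 1))) * y)‖ₑ ^ 2) (w φ y) := by
    have : (fun n : ℕ => ‖φ (((Dil.n:ℝ) + 2) ^ (-(-((n:ℤ) + 1))) * y)‖ₑ ^ 2) =
        fun i : ℕ => ‖φ (((Dil.n:ℝ) + 2) ^ (i + 1) * y)‖ₑ ^ 2 := by
      funext n
      rw [neg_neg]
      congr 3
    rw [this]
    exact ENNReal.summable.hasSum
  exact (HasSum.of_nat_of_neg_add_one (f := fun j : ℤ => ‖φ (((Dil.n:ℝ) + 2) ^ (-j) * y)‖ₑ ^ 2) h1 h2).tsum_eq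

/-- fibre linear algebra in l2(Z): the weight is the diagonal of a projection. -/
theorem rank_one (φ : ℝ → ℂ) (x : ℝ)
    (h1 : ∀ (j : ℕ) (r : ℤ), ∑' m : ℤ, ‖φ ((x + r) / (Dil.n + 2) ^ j + m)‖ₑ ^ 2 = 1)
    (hc : ∀ (j : ℕ) (r : ℤ) (i : ℕ), 1 ≤ i →
      ∑' m : ℤ, φ (((Dil.n:ℝ) + 2) ^ i * ((x + r) / (Dil.n + 2) ^ j + m)) * (starRingEnd ℂ) (φ ((x + r) / (Dil.n + 2) ^ j + m)) = 0)
    (h2 : ∀ n : ℤ, ∑' j : ℤ, ‖φ (((Dil.n:ℝ) + 2) ^ j * (x + n))‖ₑ ^ 2 = 1) :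
    ∑' n : ℤ, w φ (x + n) = 0 ∨ 1 ≤ ∑' n : ℤ, w φ (x + n) := by
  have hr0 : ∀ i : (Σ j : ℕ, Fin ((Dil.n + 2) ^ j)), (0:ℤ) ≤ ((i.2 : ℕ) : ℤ) := fun i => Int.natCast_nonneg _
  have hr : ∀ i : (Σ j : ℕ, Fin ((Dil.n + 2) ^ j)), ((i.2 : ℕ) : ℤ) < (Dil.n + 2) ^ i.1 := fun i => by
    have := i.2.2
    exact_mod_cast this
  have hvnorm : ∀ i : (Σ j : ℕ, Fin ((Dil.n + 2) ^ j)), ∑' n, ‖vf φ x i.1 ((i.2 : ℕ) : ℤ) n‖ₑ ^ 2 = 1 :=
    fun i => vf_norm φ x h1 i.1 _ (hr0 i) (hr i)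
  let v : (Σ j : ℕ, Fin ((Dil.n + 2) ^ j)) → HZ := fun i =>
    ⟨vf φ x i.1 ((i.2 : ℕ) : ℤ), memlp_of _ (by rw [hvnorm i]; exact ENNReal.one_ne_top)⟩
  have hvn : ∀ i n, v i n = vf φ x i.1 ((i.2 : ℕ) : ℤ) n := fun _ _ => rfl
  have hlt : ∀ i i' : (Σ j : ℕ, Fin ((Dil.n + 2) ^ j)), i.1 < i'.1 → (inner ℂ (v i') (v i)) = 0 := by
    intro i i' hlt
    have hdvd : ((Dil.n:ℤ) + 2) ^ i.1 ∣ (Dil.n + 2) ^ i'.1 := pow_dvd_pow _ hlt.le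
    rw [lp.inner_eq_tsum]
    by_cases hcl : ((i'.2:ℕ):ℤ) % (Dil.n + 2) ^ i.1 = ((i.2:ℕ):ℤ)
    · have := sum_vf φ x hc i'.1 _ (hr0 i') (hr i') (fun n => v i n) (i'.1 - i.1) (by omega) (by
        intro n hn
        simp only [hvn]
        unfold vf
        rw [if_pos]
        · congr 1
          have e1 : ((Dil.n:ℝ) + 2) ^ i'.1 = (Dil.n + 2) ^ (i'.1 - i.1) * (Dil.n + 2) ^ i.1 := by
            rw [← pow_add, Nat.sub_add_cancel hlt.le]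
          rw [e1]
          field_simp
        · rw [← hcl, ← hn, Int.emod_emod_of_dvd _ hdvd])
      simpa [RCLike.inner_apply, hvn] using this
    · have hz : ∀ n, (inner ℂ (v i' n) (v i n)) = 0 := by
        intro n
        rw [hvn, hvn]
        unfold vf
        by_cases h1 : n % (Dil.n + 2) ^ i'.1 = ((i'.2:ℕ):ℤ)
        · have h2 : n % (Dil.n + 2) ^ i.1 ≠ ((i.2:ℕ):ℤ) := by
            intro h2
            apply hcl
            rw [← h2, ← h1, Int.emod_emod_of_dvd _ hdvd]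
          rw [if_neg h2, inner_zero_right]
        · rw [if_neg h1, inner_zero_left]
      simp_rw [hz]
      exact tsum_zero
  have hon : Orthonormal ℂ v := by
    constructor
    · intro i
      have e1 := tsum_esq (v i)
      have e2 : ∑' n, ‖v i n‖ₑ ^ 2 = 1 := hvnorm i
      rw [e2] at e1
      have e3 : ‖v i‖ ^ 2 = 1 := by
        have := congrArg ENNReal.toReal e1
        rw [ENNReal.toReal_ofReal (sq_nonneg _)] at this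
        simpa using this.symm
      have e4 : 0 ≤ ‖v i‖ := norm_nonneg _
      nlinarith
    · intro i i' hne
      rcases lt_trichotomy i.1 i'.1 with h | h | h
      · exact inner_eq_zero_symm.mp (hlt i i' h)
      · obtain ⟨j, r⟩ := i
        obtain ⟨j', r'⟩ := i'
        simp only at h
        subst h
        have hrr : r ≠ r' := fun h => hne (by rw [h])
        rw [lp.inner_eq_tsum]
        have hz : ∀ n, (inner ℂ (v ⟨j, r⟩ n) (v ⟨j, r'⟩ n)) = 0 := by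
          intro n
          rw [hvn, hvn]
          unfold vf
          simp only
          by_cases h1 : n % (Dil.n + 2) ^ j = ((r:ℕ):ℤ)
          · have h2 : n % (Dil.n + 2) ^ j ≠ ((r':ℕ):ℤ) := by
              intro h2
              apply hrr
              apply Fin.ext
              rw [h1] at h2
              exact_mod_cast h2
            rw [if_neg h2, inner_zero_right]
          · rw [if_neg h1, inner_zero_left]
        simp_rw [hz]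
        exact tsum_zero
      · exact hlt i' i h
  have hW : ∀ n : ℤ, ∑' i, ‖v i n‖ₑ ^ 2 + w φ (x + n) = 1 := by
    intro n
    have e1 : ∑' i, ‖v i n‖ₑ ^ 2 = ∑' j : ℕ, ‖φ ((x + n) / (Dil.n + 2) ^ j)‖ₑ ^ 2 := fib_sum φ x n
    rw [e1, ← split_z, h2 n]
  exact (abs_rank v hon (fun n => w φ (x + n)) (fun n => w φ (x + n)) hW (0 : HZ) (by simp)
    (fun i => by simp) (fun n => by simp)).1

end Pool.Agent.KS6_20.WV.LarD
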