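import Pool.Agent.KS6_20.WV.LarH
import Pool.Agent.KS6_20.WV.LarFib
import Pool.Agent.KS6_20.WV.LarCal
import Pool.Agent.KS6_20.WV.LarRank
import Pool.Agent.KS6_20.WV.LarHit

set_option autoImplicit false
open MeasureTheory Pool.Agent.KS6_20.WV
open scoped ENNReal

namespace Pool.Agent.KS6_20.WV.Lar

variable [Dil]

theorem int_D (hd : 1 ≤ Dil.n) (φ : ℝ → ℂ) (hm : Measurable φ)
    (A1 : ∀ᵐ x : ℝ, ∑' n : ℤ, ‖φ (x + n)‖ₑ ^ 2 = 1) :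
    ∫⁻ x in Set.Ico (0:ℝ) 1, ∑' n : ℤ, w φ (x + n) < 1 := by
  have h0 : ∫⁻ x, ‖φ x‖ₑ ^ 2 = 1 := by
    rw [Pool.Agent.Helper152.LarA.per_lintegral, ← lintegral_tsum (fun n => by fun_prop)]
    have : ∫⁻ x in Set.Ico (0:ℝ) 1, ∑' n : ℤ, ‖φ (x + n)‖ₑ ^ 2 = ∫⁻ x in Set.Ico (0:ℝ) 1, 1 :=
      lintegral_congr_ae (ae_restrict_of_ae A1)
    rw [this]; simp
  have hw : ∀ n : ℤ, AEMeasurable (fun x : ℝ => w φ (x + n)) (volume.restrict (Set.Ico (0:ℝ) 1)) :=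
    fun n => ((measurable_w hm).comp (by fun_prop : Measurable fun x : ℝ => x + n)).aemeasurable
  rw [lintegral_tsum hw, ← Pool.Agent.Helper152.LarA.per_lintegral (w φ)]
  have h2 : ∫⁻ x, w φ x = ∑' i : ℕ, ∫⁻ y, ‖φ (((Dil.n:ℝ) + 2) ^ (i + 1) * y)‖ₑ ^ 2 := by
    unfold w
    rw [lintegral_tsum (fun i => by fun_prop)]
  rw [h2]
  have h1 : ∀ i : ℕ, ∫⁻ y, ‖φ (((Dil.n:ℝ) + 2) ^ (i + 1) * y)‖ₑ ^ 2 =
      (((Dil.n + 2 : ℕ) : ℝ≥0∞)⁻¹) ^ (i + 1) := by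
    intro i
    have := Pool.Agent.Helper152.LarB.lintegral_dil (a := ((Dil.n:ℝ) + 2) ^ (i + 1)) (by positivity)
      (fun x => ‖φ x‖ₑ ^ 2) (by fun_prop)
    rw [h0] at this
    have h3 : ENNReal.ofReal (((Dil.n:ℝ) + 2) ^ (i + 1)) = ((Dil.n + 2 : ℕ) : ℝ≥0∞) ^ (i + 1) := by
      rw [ENNReal.ofReal_pow (by positivity)]
      congr 1
      rw [← ENNReal.ofReal_natCast]
      push_cast
      rfl
    rw [h3] at this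
    rw [← ENNReal.inv_pow]
    exact ENNReal.eq_inv_of_mul_eq_one_left (by rw [mul_comm]; exact this)
  simp_rw [h1]
  have h4 : ∑' i : ℕ, (2⁻¹ : ℝ≥0∞) ^ (i + 1) = 1 := by
    simp_rw [pow_succ']
    rw [ENNReal.tsum_mul_left, ENNReal.tsum_geometric]
    rw [ENNReal.one_sub_inv_two, inv_inv]
    exact ENNReal.inv_mul_cancel (by norm_num) (by norm_num)
  have h5 : ((Dil.n + 2 : ℕ) : ℝ≥0∞)⁻¹ < 2⁻¹ := by
    rw [ENNReal.inv_lt_inv]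
    have : (2 : ℕ) < Dil.n + 2 := by omega
    exact_mod_cast this
  have hle : ∀ i : ℕ, (((Dil.n + 2 : ℕ) : ℝ≥0∞)⁻¹) ^ (i + 1) ≤ (2⁻¹ : ℝ≥0∞) ^ (i + 1) :=
    fun i => pow_le_pow_left' h5.le _
  rw [← h4]
  refine ENNReal.tsum_lt_tsum (i := 0) ?_ hle ?_
  · exact ne_top_of_le_ne_top (by rw [h4]; exact ENNReal.one_ne_top) (ENNReal.tsum_le_tsum hle)
  · simpa using h5

theorem D_zero (φ : ℝ → ℂ) (x : ℝ) : ∑' n : ℤ, w φ (x + n) = 0 ↔ x ∈ Zs φ := by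
  rw [ENNReal.tsum_eq_zero]; rfl

theorem core (hd : 1 ≤ Dil.n) (φ : ℝ → ℂ) (hm : Measurable φ)
    (A1 : ∀ᵐ x : ℝ, ∑' n : ℤ, ‖φ (x + n)‖ₑ ^ 2 = 1)
    (C : ∀ i : ℕ, 1 ≤ i → ∀ᵐ x : ℝ, ∑' n : ℤ, φ (((Dil.n:ℝ) + 2) ^ i * (x + n)) * (starRingEnd ℂ) (φ (x + n)) = 0)
    (A2 : ∀ᵐ x : ℝ, ∑' j : ℤ, ‖φ (((Dil.n:ℝ) + 2) ^ j * x)‖ₑ ^ 2 = 1) :
    ∃ W : Set ℝ, MeasurableSet W ∧
        (∀ᵐ x : ℝ ∂volume, ∃! k : ℤ, x - (k : ℝ) ∈ W) ∧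
        (∀ᵐ x : ℝ ∂volume, ∃! j : ℤ, (((Dil.n:ℝ) + 2) ^ (-j)) * x ∈ W) ∧
        (∀ᵐ ξ : ℝ ∂volume, ξ ∈ W → φ ξ ≠ 0) := by
  by_cases hZ : volume (Zs φ) = 0
  swap
  · exact non_mra φ hm A1 A2 (LarE.hit (Zs φ) (measurableSet_Zs φ hm)
      (fun x hx n => (Zs_add φ n).2 hx) hZ)
  exfalso
  have C' : ∀ᵐ x : ℝ, ∀ i : ℕ, 1 ≤ i →
      ∑' n : ℤ, φ (((Dil.n:ℝ) + 2) ^ i * (x + n)) * (starRingEnd ℂ) (φ (x + n)) = 0 := by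
    rw [ae_all_iff]
    intro i
    by_cases hi : 1 ≤ i
    · filter_upwards [C i hi] with x hx _ using hx
    · exact Filter.Eventually.of_forall fun x h => absurd h hi
  have hO := ae_Orb (A1.and (C'.and A2))
  have key : ∀ᵐ x : ℝ, (∑' n : ℤ, w φ (x + n) = 0 ∨ 1 ≤ ∑' n : ℤ, w φ (x + n)) := by
    filter_upwards [hO] with x hx
    have e : ∀ (j : ℕ) (r : ℤ), ((Dil.n:ℝ) + 2) ^ (-(j:ℤ)) * x + r * ((Dil.n:ℝ) + 2) ^ (-(j:ℤ)) =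
        (x + r) / (Dil.n + 2) ^ j := by
      intro j r
      rw [zpow_neg, zpow_natCast]
      ring
    refine LarD.rank_one φ x ?_ ?_ ?_
    · intro j r
      have := (hx (-(j:ℤ)) r (-(j:ℤ))).1
      rw [e] at this
      exact this
    · intro j r i hi
      have := (hx (-(j:ℤ)) r (-(j:ℤ))).2.1 i hi
      rw [e] at this
      exact this
    · intro n
      have := (hx 0 n 0).2.2
      have e2 : ((Dil.n:ℝ) + 2) ^ (0:ℤ) * x + (n:ℝ) * ((Dil.n:ℝ) + 2) ^ (0:ℤ) = x + n := by simp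
      rw [e2] at this
      exact this
  have hge : ∀ᵐ x : ℝ, 1 ≤ ∑' n : ℤ, w φ (x + n) := by
    have hZ' : ∀ᵐ x : ℝ, x ∉ Zs φ := by
      rw [ae_iff]; simpa using hZ
    filter_upwards [key, hZ'] with x hx hz
    rcases hx with h | h
    · exact absurd ((D_zero φ x).1 h) hz
    · exact h
  have h1 : ∫⁻ x in Set.Ico (0:ℝ) 1, (1:ℝ≥0∞) ≤ ∫⁻ x in Set.Ico (0:ℝ) 1, ∑' n : ℤ, w φ (x + n) :=
    lintegral_mono_ae (ae_restrict_of_ae hge)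
  have h2 := int_D hd φ hm A1
  have h3 : ∫⁻ x in Set.Ico (0:ℝ) 1, (1:ℝ≥0∞) = 1 := by simp
  rw [h3] at h1
  exact absurd h2 (not_lt.mpr h1)

theorem main (hd : 1 ≤ Dil.n) (φ : ℝ → ℂ) (F : ℤ → ℤ → ℝ → ℂ) (hφ : MemLp φ 2 volume)
    (hF : ∀ (j k : ℤ) (ξ : ℝ), F j k ξ =
        ((Real.sqrt (((Dil.n:ℝ) + 2) ^ (-j)) : ℝ) : ℂ) *
          Complex.exp (-(2 * (Real.pi : ℂ) * Complex.I * (k : ℂ) * (((((Dil.n:ℝ) + 2) ^ (-j)) * ξ : ℝ) : ℂ))) *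
          φ ((((Dil.n:ℝ) + 2) ^ (-j)) * ξ))
    (ho : ∀ j k j' k' : ℤ, ∫ ξ, F j k ξ * (starRingEnd ℂ) (F j' k' ξ) =
        if j = j' ∧ k = k' then (1:ℂ) else 0)
    (hc : ∀ g : ℝ → ℂ, MemLp g 2 volume →
        (∀ j k : ℤ, ∫ ξ, g ξ * (starRingEnd ℂ) (F j k ξ) = 0) → g =ᵐ[volume] 0) :
    ∃ W : Set ℝ, MeasurableSet W ∧
        (∀ᵐ x : ℝ ∂volume, ∃! k : ℤ, x - (k : ℝ) ∈ W) ∧
        (∀ᵐ x : ℝ ∂volume, ∃! j : ℤ, (((Dil.n:ℝ) + 2) ^ (-j)) * x ∈ W) ∧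
        (∀ᵐ ξ : ℝ ∂volume, ξ ∈ W → φ ξ ≠ 0) := by
  obtain ⟨φ', hm', hφφ'⟩ : ∃ φ' : ℝ → ℂ, Measurable φ' ∧ φ =ᵐ[volume] φ' :=
    ⟨hφ.1.mk φ, hφ.1.stronglyMeasurable_mk.measurable, hφ.1.ae_eq_mk⟩
  have hφ' : MemLp φ' 2 volume := hφ.ae_eq hφφ'
  obtain ⟨F', hF'⟩ : ∃ F' : ℤ → ℤ → ℝ → ℂ, ∀ (j k : ℤ) (ξ : ℝ), F' j k ξ =
        ((Real.sqrt (((Dil.n:ℝ) + 2) ^ (-j)) : ℝ) : ℂ) *
          Complex.exp (-(2 * (Real.pi : ℂ) * Complex.I * (k : ℂ) * (((((Dil.n:ℝ) + 2) ^ (-j)) * ξ : ℝ) : ℂ))) *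
          φ' ((((Dil.n:ℝ) + 2) ^ (-j)) * ξ) := ⟨_, fun _ _ _ => rfl⟩
  have hFF : ∀ j k : ℤ, F j k =ᵐ[volume] F' j k := by
    intro j k
    have h1 := ae_affine (P := fun x => φ x = φ' x) hφφ' (((Dil.n:ℝ) + 2) ^ (-j)) 0 (by positivity)
    filter_upwards [h1] with x hx
    rw [add_zero] at hx
    rw [hF, hF', hx]
  have ho' : ∀ j k j' k' : ℤ, ∫ ξ, F' j k ξ * (starRingEnd ℂ) (F' j' k' ξ) =
        if j = j' ∧ k = k' then (1:ℂ) else 0 := by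
    intro j k j' k'
    rw [← ho j k j' k']
    apply integral_congr_ae
    filter_upwards [hFF j k, hFF j' k'] with x h1 h2
    rw [h1, h2]
  have hc' : ∀ g : ℝ → ℂ, MemLp g 2 volume →
        (∀ j k : ℤ, ∫ ξ, g ξ * (starRingEnd ℂ) (F' j k ξ) = 0) → g =ᵐ[volume] 0 := by
    intro g hg h
    refine hc g hg fun j k => ?_
    rw [← h j k]
    apply integral_congr_ae
    filter_upwards [hFF j k] with x h1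
    rw [h1]
  have hfib := LarA.fibre φ' F' hm' hφ' hF' ho'
  have hcal := LarB.calderon φ' F' hm' hφ' hF' ho' hc'
  obtain ⟨W, hW, h1, h2, h3⟩ := core hd φ' hm' hfib.1 hfib.2 hcal
  refine ⟨W, hW, h1, h2, ?_⟩
  filter_upwards [h3, hφφ'] with x hx hxx hxW
  rw [hxx]; exact hx hxW

end Pool.Agent.KS6_20.WV.Lar
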